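import Pool.Agent.Lib_helper31.Flip.DD
import Pool.Agent.Lib_helper85.Flip.DD2

/-!
# Compactness of `AA` and `BB` (block DD of the contract, part 3)
-/

set_option autoImplicit false

namespace Pool.Agent.Flip

open scoped InnerProductSpace
open Module Set Topology Pool.Agent.Deg47

noncomputable section

variable {Φ : Sys}

/-- triples `(w, k, f)` -/
abbrev FrP := W × V × (Fin 4 → V)

/-- The closed conditions for a normalised frame. -/
structure KF (Φ : Sys) (p : FrP) : Prop where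
  w_norm : ‖p.1‖ = 1
  k_norm : ‖p.2.1‖ = 1
  k_ker : A Φ p.1 p.2.1 = 0
  f_orth : ∀ i j, ⟪p.2.2 i, p.2.2 j⟫_ℝ = if i = j then 1 else 0
  kf : ∀ j, ⟪p.2.1, p.2.2 j⟫_ℝ = 0
  Jkf : ∀ j, ⟪J p.2.1, p.2.2 j⟫_ℝ = 0
  fJf : ∀ i j, ⟪p.2.2 i, J (p.2.2 j)⟫_ℝ = 0
  neg : ∀ j, Ap Φ (-p.1) (p.2.2 j) = 0

theorem isClosed_KF (hS : Symm Φ) : IsClosed {p : FrP | KF Φ p} := by
  have h1 : IsClosed {p : FrP | ‖p.1‖ = 1} :=
    isClosed_eq continuous_fst.norm continuous_const
  have h2 : IsClosed {p : FrP | ‖p.2.1‖ = 1} :=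
    isClosed_eq continuous_snd.fst.norm continuous_const
  have h3 : IsClosed {p : FrP | A Φ p.1 p.2.1 = 0} :=
    isClosed_eq (((continuous_A Φ).comp continuous_fst).clm_apply continuous_snd.fst)
      continuous_const
  have hf : ∀ j : Fin 4, Continuous (fun p : FrP => p.2.2 j) := fun j =>
    (continuous_apply j).comp continuous_snd.snd
  have h4 : ∀ i j, IsClosed {p : FrP | ⟪p.2.2 i, p.2.2 j⟫_ℝ = if i = j then 1 else 0} :=
    fun i j => isClosed_eq ((hf i).inner (hf j)) continuous_const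
  have h5 : ∀ j, IsClosed {p : FrP | ⟪p.2.1, p.2.2 j⟫_ℝ = 0} :=
    fun j => isClosed_eq (continuous_snd.fst.inner (hf j)) continuous_const
  have h6 : ∀ j, IsClosed {p : FrP | ⟪J p.2.1, p.2.2 j⟫_ℝ = 0} :=
    fun j => isClosed_eq ((J.continuous.comp continuous_snd.fst).inner (hf j)) continuous_const
  have h7 : ∀ i j, IsClosed {p : FrP | ⟪p.2.2 i, J (p.2.2 j)⟫_ℝ = 0} :=
    fun i j => isClosed_eq ((hf i).inner (J.continuous.comp (hf j))) continuous_const
  have h8 : ∀ j, IsClosed {p : FrP | Ap Φ (-p.1) (p.2.2 j) = 0} := fun j =>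
    isClosed_eq (((continuous_Ap hS).comp continuous_fst.neg).clm_apply (hf j)) continuous_const
  have e : {p : FrP | KF Φ p} = {p : FrP | ‖p.1‖ = 1} ∩ ({p : FrP | ‖p.2.1‖ = 1} ∩
      ({p : FrP | A Φ p.1 p.2.1 = 0} ∩
      ((⋂ i, ⋂ j, {p : FrP | ⟪p.2.2 i, p.2.2 j⟫_ℝ = if i = j then 1 else 0}) ∩
      ((⋂ j, {p : FrP | ⟪p.2.1, p.2.2 j⟫_ℝ = 0}) ∩
      ((⋂ j, {p : FrP | ⟪J p.2.1, p.2.2 j⟫_ℝ = 0}) ∩
      ((⋂ i, ⋂ j, {p : FrP | ⟪p.2.2 i, J (p.2.2 j)⟫_ℝ = 0}) ∩
      (⋂ j, {p : FrP | Ap Φ (-p.1) (p.2.2 j) = 0}))))))) := by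
    ext p
    simp only [mem_inter_iff, mem_iInter]
    constructor
    · rintro ⟨a1, a2, a3, a4, a5, a6, a7, a8⟩
      exact ⟨a1, a2, a3, a4, a5, a6, a7, a8⟩
    · rintro ⟨a1, a2, a3, a4, a5, a6, a7, a8⟩
      exact ⟨a1, a2, a3, a4, a5, a6, a7, a8⟩
  rw [e]
  exact h1.inter (h2.inter (h3.inter ((isClosed_iInter fun i => isClosed_iInter fun j =>
    h4 i j).inter ((isClosed_iInter h5).inter ((isClosed_iInter h6).inter
    ((isClosed_iInter fun i => isClosed_iInter fun j => h7 i j).inter (isClosed_iInter h8)))))))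

theorem KF.f_norm {p : FrP} (h : KF Φ p) (j : Fin 4) : ‖p.2.2 j‖ = 1 := by
  have h1 := h.f_orth j j
  rw [if_pos rfl, real_inner_self_eq_norm_sq] at h1
  have h2 : ‖p.2.2 j‖ ^ 2 = 1 ^ 2 := by rw [h1]; norm_num
  exact (pow_left_inj₀ (norm_nonneg _) zero_le_one two_ne_zero).1 h2

theorem isCompact_KF (hS : Symm Φ) : IsCompact {p : FrP | KF Φ p} := by
  refine Metric.isCompact_of_isClosed_isBounded (isClosed_KF hS) ?_
  refine (Metric.isBounded_closedBall (x := (0 : FrP)) (r := 1)).subset ?_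
  intro p hp
  have hp' : KF Φ p := hp
  rw [mem_closedBall_zero_iff, Prod.norm_def, max_le_iff, Prod.norm_def, max_le_iff]
  refine ⟨hp'.w_norm.le, hp'.k_norm.le, ?_⟩
  rw [pi_norm_le_iff_of_nonneg zero_le_one]
  intro j
  exact (hp'.f_norm j).le

theorem continuous_fr : Continuous (fun p : FrP => (p.1, fr p.2.1 p.2.2)) := by
  refine continuous_fst.prodMk ?_
  rw [continuous_pi_iff]
  have hf : ∀ j : Fin 4, Continuous (fun p : FrP => J1 (p.2.2 j)) := fun j =>
    J1.continuous.comp ((continuous_apply j).comp continuous_snd.snd)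
  intro i
  fin_cases i
  · exact continuous_snd.fst
  · exact J.continuous.comp continuous_snd.fst
  · exact hf 0
  · exact hf 1
  · exact hf 2
  · exact hf 3

/-- the form `⟪A x, x⟫` of a six-frame -/
theorem fr_sum (k : V) (f : Fin 4 → V) (x : Fin 6 → ℝ) :
    ∑ j, x j • fr k f j = x 0 • k + x 1 • J k +
      J1 (x 2 • f 0 + x 3 • f 1 + x 4 • f 2 + x 5 • f 3) := by
  rw [Fin.sum_univ_six]
  unfold fr
  simp only [map_add, map_smul]
  simp
  abel

/-- `J` as a linear isometry equivalence. -/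
def JU : V ≃ₗᵢ[ℝ] V :=
  { toLinearEquiv := LinearEquiv.ofLinearMap (J : V →ₗ[ℝ] V) (-(J : V →ₗ[ℝ] V))
      (by ext z : 1; simp only [LinearMap.comp_apply, LinearMap.neg_apply, map_neg,
            ContinuousLinearMap.coe_coe, J_J, neg_neg, LinearMap.id_apply])
      (by ext z : 1; simp only [LinearMap.comp_apply, LinearMap.neg_apply,
            ContinuousLinearMap.coe_coe, J_J, neg_neg, LinearMap.id_apply])
    norm_map' := fun z => norm_J z }

theorem JU_apply (z : V) : JU z = J z := rfl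

theorem finrank_split_w (hS : Symm Φ) (w : W) :
    finrank ℝ (Kr (A Φ w)) + 2 * finrank ℝ (Fp (A Φ w)) = 10 := by
  have h := finrank_split_anti (T := A Φ w) JU (A_sym hS w) (fun x => A_J Φ w x)
  rwa [finrank_V] at h

theorem J_mem_Kr {w : W} {k : V} (hk : k ∈ Kr (A Φ w)) : J k ∈ Kr (A Φ w) := by
  rw [mem_Kr, A_J, mem_Kr.1 hk, map_zero, neg_zero]

/-- `⟪A y, J y⟫ = 0` as soon as `A_-(w) y = 0`. -/
theorem inner_A_J_of_neg (hS : Symm Φ) {w : W} {y : V} (hy : Ap Φ (-w) y = 0) :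
    ⟪A Φ w y, J y⟫_ℝ = 0 := by
  have hT := A_sym hS w
  have hy' : pos (-A Φ w) y = 0 := by
    have := hy
    unfold Ap at this
    rwa [A_neg] at this
  have h1 : pos (A Φ w) y = A Φ w y := by
    have := pos_apply_sub hT y
    rwa [hy', sub_zero] at this
  have h2 : pos (A Φ w) (J y) = 0 := by
    have := pos_anti JU hT (fun x => A_J Φ w x) y
    rwa [JU_apply, hy', map_zero] at this
  rw [← h1, pos_sym hT, h2, inner_zero_right]

theorem KF.neg_comb {p : FrP} (h : KF Φ p) (x : Fin 6 → ℝ) :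
    Ap Φ (-p.1) (x 2 • p.2.2 0 + x 3 • p.2.2 1 + x 4 • p.2.2 2 + x 5 • p.2.2 3) = 0 := by
  rw [map_add, map_add, map_add, map_smul, map_smul, map_smul, map_smul, h.neg, h.neg, h.neg,
    h.neg]
  simp

theorem inner_A_J1 (hS : Symm Φ) (w : W) (y : V) :
    ⟪A Φ w (J1 y), J1 y⟫_ℝ = 2 * ⟪A Φ w y, J y⟫_ℝ := by
  rw [J1_apply, map_add, A_J, inner_add_left, inner_add_right, inner_add_right, inner_neg_left,
    inner_neg_left, inner_J, inner_J_left]
  ring

theorem KF.iso (hS : Symm Φ) {p : FrP} (h : KF Φ p) (x : Fin 6 → ℝ) :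
    ⟪A Φ p.1 (∑ j, x j • fr p.2.1 p.2.2 j), ∑ j, x j • fr p.2.1 p.2.2 j⟫_ℝ = 0 := by
  rw [fr_sum]
  set y := x 2 • p.2.2 0 + x 3 • p.2.2 1 + x 4 • p.2.2 2 + x 5 • p.2.2 3 with hy
  set u := x 0 • p.2.1 + x 1 • J p.2.1 with hu
  have hAu : A Φ p.1 u = 0 := by
    rw [hu, map_add, map_smul, map_smul, A_J, h.k_ker, map_zero]; simp
  rw [map_add, hAu, zero_add, inner_add_right, A_sym hS p.1 (J1 y) u, hAu, inner_zero_right,
    zero_add, inner_A_J1 hS, inner_A_J_of_neg hS (h.neg_comb x), mul_zero]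

theorem KF.li {p : FrP} (h : KF Φ p) : LinearIndependent ℝ (fr p.2.1 p.2.2) := by
  rw [Fintype.linearIndependent_iff]
  intro x hx
  rw [fr_sum] at hx
  obtain ⟨w, k, f⟩ := p
  have hkk : ⟪k, k⟫_ℝ = 1 := by
    rw [real_inner_self_eq_norm_sq, h.k_norm]; norm_num
  have hJkk : ⟪k, J k⟫_ℝ = 0 := by rw [real_inner_comm]; exact inner_J_self k
  have hkf := h.kf
  have hJkf := h.Jkf
  have hff := h.f_orth
  have hfJf := h.fJf
  simp only at hx hkf hJkf hff hfJf
  have hkJf : ∀ j, ⟪k, J (f j)⟫_ℝ = 0 := by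
    intro j
    have := inner_J_left k (f j)
    rw [hJkf] at this; linarith
  have hJkJf : ∀ j, ⟪J k, J (f j)⟫_ℝ = 0 := by
    intro j; rw [inner_J]; exact hkf j
  have hfk : ∀ j, ⟪f j, k⟫_ℝ = 0 := by intro j; rw [real_inner_comm]; exact hkf j
  have hfJk : ∀ j, ⟪f j, J k⟫_ℝ = 0 := by intro j; rw [real_inner_comm]; exact hJkf j
  have hJkk' : ⟪J k, k⟫_ℝ = 0 := inner_J_self k
  have hJJ : ⟪J k, J k⟫_ℝ = 1 := by rw [inner_J]; exact hkk
  have e0 := congrArg (fun v => ⟪k, v⟫_ℝ) hx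
  have e1 := congrArg (fun v => ⟪J k, v⟫_ℝ) hx
  have ef := fun j => congrArg (fun v => ⟪f j, v⟫_ℝ) hx
  have ef0 := ef 0
  have ef1 := ef 1
  have ef2 := ef 2
  have ef3 := ef 3
  simp only [J1_apply, map_add, map_smul, inner_add_right, inner_smul_right, hkk, hJkk, hkf,
    hkJf, inner_zero_right] at e0
  simp only [J1_apply, map_add, map_smul, inner_add_right, inner_smul_right, hJkk', hJJ, hJkf,
    hJkJf, inner_zero_right] at e1
  simp only [J1_apply, map_add, map_smul, inner_add_right, inner_smul_right, hfk, hfJk, hff,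
    hfJf, inner_zero_right] at ef0 ef1 ef2 ef3
  norm_num at e0 e1
  simp at ef0 ef1 ef2 ef3
  intro i
  fin_cases i
  · exact e0
  · exact e1
  · exact ef0
  · exact ef1
  · exact ef2
  · exact ef3

theorem KF.nd (hS : Symm Φ) (hZ : ZeroFree Φ) {p : FrP} (h : KF Φ p) :
    ND Φ p.1 (fr p.2.1 p.2.2) := by
  refine ND_of_isotropic hZ ?_ h.li (h.iso hS)
  intro h0
  have := h.w_norm
  rw [h0, norm_zero] at this
  exact zero_ne_one this

/-- `DD` vanishes on `D2`. -/
theorem KF.DD_eq_zero (hS : Symm Φ) (hZ : ZeroFree Φ) {p : FrP} (h : KF Φ p)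
    (h2 : p.1 ∈ D2 Φ) : DD Φ p.1 (fr p.2.1 p.2.2) = 0 := by
  have hsp := finrank_split_w hS p.1
  have h3 : 2 < finrank ℝ (Kr (A Φ p.1)) := h2.2
  have h4 : 4 ≤ finrank ℝ (LinearMap.ker (A Φ p.1 : V →ₗ[ℝ] V)) := by
    change 4 ≤ finrank ℝ (Kr (A Φ p.1))
    omega
  set F := Submodule.span ℝ (Set.range (fr p.2.1 p.2.2)) with hF
  have hF6 : finrank ℝ F = 6 := by
    rw [hF, finrank_span_eq_card h.li]; simp
  have hmemF : ∀ x ∈ F, ∃ c : Fin 6 → ℝ, ∑ j, c j • fr p.2.1 p.2.2 j = x := by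
    intro x hx
    exact (Submodule.mem_span_range_iff_exists_fun ℝ).mp hx
  have hiso : ∀ x ∈ F, ⟪(A Φ p.1 : V →ₗ[ℝ] V) x, x⟫_ℝ = 0 := by
    intro x hx
    obtain ⟨c, rfl⟩ := hmemF x hx
    exact h.iso hS c
  obtain ⟨e, heF, he⟩ := isotropic_extend (antiPair hS p.1) finrank_V h4 F hF6 hiso
  refine DD_eq_zero_of_extend e ?_
  intro c s x hx
  set y := ∑ j, x j • fr p.2.1 p.2.2 j with hy
  have hyF : y ∈ F := Submodule.sum_mem _ fun j _ =>
    Submodule.smul_mem _ _ (Submodule.subset_span ⟨j, rfl⟩)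
  have h5 : ⟪A Φ p.1 (y + s • e), y + s • e⟫_ℝ = 0 := he y hyF s
  rw [inner_A_self, hx, inner_smul_right, real_inner_self_eq_norm_sq, h.w_norm] at h5
  have hc : c = 0 := by linarith
  rw [hc, zero_smul] at hx
  have h6 := hZ _ hx
  have hs : s = 0 := by
    by_contra hs
    apply heF
    have h7 : e = s⁻¹ • (-y) := by
      rw [eq_inv_smul_iff₀ hs]
      exact eq_neg_of_add_eq_zero_right h6
    rw [h7]
    exact F.smul_mem _ (F.neg_mem hyF)
  rw [hs, zero_smul, add_zero] at h6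
  refine ⟨hc, hs, ?_⟩
  funext j
  exact (Fintype.linearIndependent_iff.1 h.li) x h6 j

theorem KF.frameAt (hS : Symm Φ) {p : FrP} (h : KF Φ p) (h1 : p.1 ∈ D1 Φ) :
    FrameAt Φ p.1 p.2.1 p.2.2 := by
  obtain ⟨w, k, f⟩ := p
  have hT := A_sym hS w
  have hk0 : k ≠ 0 := by
    intro h0
    have := h.k_norm
    simp only [h0, norm_zero] at this
    exact zero_ne_one this
  refine ⟨hk0, h.k_ker, ?_, ?_⟩
  · have : Orthonormal ℝ f := by
      rw [orthonormal_iff_ite]
      exact h.f_orth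
    exact this.linearIndependent
  · intro j
    -- the kernel is spanned by `k, J k`
    have hker : ∀ x ∈ Kr (A Φ w), ∃ a b : ℝ, x = a • k + b • J k := by
      have hli : LinearIndependent ℝ ![k, J k] := by
        rw [LinearIndependent.pair_iff]
        intro a b hab
        have e0 := congrArg (fun v => ⟪k, v⟫_ℝ) hab
        have e1 := congrArg (fun v => ⟪J k, v⟫_ℝ) hab
        have hkk : ⟪k, k⟫_ℝ = 1 := by
          rw [real_inner_self_eq_norm_sq, h.k_norm]; norm_num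
        have hkJk : ⟪k, J k⟫_ℝ = 0 := by rw [real_inner_comm]; exact inner_J_self k
        simp only [inner_add_right, inner_smul_right, inner_zero_right, hkk, hkJk] at e0
        simp only [inner_add_right, inner_smul_right, inner_zero_right, inner_J_self,
          inner_J, hkk] at e1
        constructor <;> linarith
      have hspan : Submodule.span ℝ (Set.range ![k, J k]) = Kr (A Φ w) := by
        apply Submodule.eq_of_le_of_finrank_eq
        · rw [Submodule.span_le]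
          rintro _ ⟨i, rfl⟩
          fin_cases i
          · exact h.k_ker
          · exact J_mem_Kr h.k_ker
        · rw [finrank_span_eq_card hli]
          have : finrank ℝ (Kr (A Φ w)) = 2 := h1.2
          rw [this]; simp
      intro x hx
      rw [← hspan] at hx
      obtain ⟨c, hc⟩ := (Submodule.mem_span_range_iff_exists_fun ℝ).mp hx
      refine ⟨c 0, c 1, ?_⟩
      rw [← hc, Fin.sum_univ_two]; rfl
    have hneg : pos (-A Φ w) (f j) = 0 := by
      have := h.neg j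
      unfold Ap at this
      simp only [A_neg] at this
      exact this
    -- the negative component vanishes
    have hn : Pr (-A Φ w) (f j) = 0 := by
      by_contra hne
      have h3 := inner_pos_of_mem_Fp hT.neg (Pr_mem (-A Φ w) (f j)) hne
      rw [← pos_eq_of_mem hT.neg (Pr_mem (-A Φ w) (f j)), pos_Pr hT.neg, hneg,
        inner_zero_left] at h3
      exact lt_irrefl _ h3
    -- the kernel component vanishes
    have hkp := ker_part_mem hT (f j)
    rw [hn, sub_zero] at hkp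
    obtain ⟨a, b, hab⟩ := hker _ hkp
    have h4 : ⟪f j - Pr (A Φ w) (f j), f j - Pr (A Φ w) (f j)⟫_ℝ = 0 := by
      conv_lhs => rw [inner_sub_right, inner_Kr_Fp hT hkp (Pr_mem _ _), sub_zero, hab]
      rw [inner_add_left, real_inner_smul_left, real_inner_smul_left, h.kf, h.Jkf]
      ring
    have h5 : f j = Pr (A Φ w) (f j) := sub_eq_zero.1 (inner_self_eq_zero.1 h4)
    change f j ∈ Fp (A Φ w)
    rw [h5]
    exact Pr_mem _ _

/-- Existence of a normalised frame over every point of `D1`. -/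
theorem exists_KF (hS : Symm Φ) {w : W} (hw : w ∈ D1 Φ) : ∃ p : FrP, KF Φ p ∧ p.1 = w := by
  have hT := A_sym hS w
  have hK2 : finrank ℝ (Kr (A Φ w)) = 2 := hw.2
  have hF4 : finrank ℝ (Fp (A Φ w)) = 4 := by
    have := finrank_split_w hS w
    omega
  obtain ⟨k0, hk0, hk0ne⟩ : ∃ k0 ∈ Kr (A Φ w), k0 ≠ 0 := by
    refine (Submodule.ne_bot_iff _).1 ?_
    intro hb
    rw [hb, finrank_bot] at hK2
    norm_num at hK2
  have hn0 : ‖k0‖ ≠ 0 := norm_ne_zero_iff.2 hk0ne
  have hk : ‖k0‖⁻¹ • k0 ∈ Kr (A Φ w) := Submodule.smul_mem _ _ hk0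
  set k := ‖k0‖⁻¹ • k0 with hkdef
  have hkn : ‖k‖ = 1 := by
    rw [hkdef, norm_smul, norm_inv, norm_norm, inv_mul_cancel₀ hn0]
  let b := (stdOrthonormalBasis ℝ (Fp (A Φ w))).reindex (finCongr hF4)
  have hfn : ∀ j, J ((b j : Fp (A Φ w)) : V) ∈ Fp (-A Φ w) := fun j =>
    map_Fp_anti JU hT (fun x => A_J Φ w x) (b j).2
  refine ⟨(w, k, fun j => ((b j : Fp (A Φ w)) : V)), ⟨hw.1, hkn, hk, ?_, ?_, ?_, ?_, ?_⟩, rfl⟩
  · intro i j
    have := orthonormal_iff_ite.1 b.orthonormal i j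
    rw [← this]
    rfl
  · intro j
    exact inner_Kr_Fp hT hk (b j).2
  · intro j
    exact inner_Kr_Fp hT (J_mem_Kr hk) (b j).2
  · intro i j
    exact inner_Fp_Fn hT (b i).2 (hfn j)
  · intro j
    change pos (A Φ (-w)) ((b j : Fp (A Φ w)) : V) = 0
    rw [A_neg]
    exact pos_neg_of_mem hT (b j).2

theorem KF.mem_D {p : FrP} (h : KF Φ p) : p.1 ∈ D Φ := by
  refine ⟨h.w_norm, p.2.1, ?_, h.k_ker⟩
  intro h0
  have := h.k_norm
  rw [h0, norm_zero] at this
  exact zero_ne_one this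

theorem D_eq (hS : Symm Φ) : D Φ = D1 Φ ∪ D2 Φ := by
  ext w
  have h1 := finrank_split_w hS w
  constructor
  · rintro ⟨hw, z, hz, hAz⟩
    have h2 : 0 < finrank ℝ (Kr (A Φ w)) := by
      rw [Module.finrank_pos_iff_exists_ne_zero]
      exact ⟨⟨z, hAz⟩, fun h => hz (congrArg Subtype.val h)⟩
    by_cases h3 : finrank ℝ (Kr (A Φ w)) = 2
    · exact Or.inl ⟨hw, h3⟩
    · refine Or.inr ⟨hw, ?_⟩
      change 2 < finrank ℝ (Kr (A Φ w))
      omega
  · have key : ∀ w, ‖w‖ = 1 → 0 < finrank ℝ (Kr (A Φ w)) → w ∈ D Φ := by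
      intro w hw h
      rw [Module.finrank_pos_iff_exists_ne_zero] at h
      obtain ⟨⟨z, hz⟩, hz0⟩ := h
      exact ⟨hw, z, fun h => hz0 (Subtype.ext h), hz⟩
    rintro (⟨hw, h⟩ | ⟨hw, h⟩)
    · refine key w hw ?_
      change finrank ℝ (Kr (A Φ w)) = 2 at h
      omega
    · refine key w hw ?_
      change 2 < finrank ℝ (Kr (A Φ w)) at h
      omega

theorem not_D1_D2 {w : W} (h1 : w ∈ D1 Φ) (h2 : w ∈ D2 Φ) : False := by
  have a := h1.2
  have b := h2.2
  omega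

/-- Sets of frames cut out by a condition on `DD` are compact. -/
theorem isCompact_KF_DD (hS : Symm Φ) (hZ : ZeroFree Φ) (P : ℤ → Prop) :
    IsCompact {p : FrP | KF Φ p ∧ P (DD Φ p.1 (fr p.2.1 p.2.2))} := by
  refine (isCompact_KF hS).of_isClosed_subset ?_ (fun p hp => hp.1)
  rw [← isOpen_compl_iff, isOpen_iff_mem_nhds]
  intro p hp
  by_cases hK : KF Φ p
  · have hP : ¬ P (DD Φ p.1 (fr p.2.1 p.2.2)) := fun h => hp ⟨hK, h⟩
    have h1 := DD_locally_const (hK.nd hS hZ)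
    have h2 := continuous_fr.continuousAt (x := p) h1
    filter_upwards [h2] with p' hp' hp''
    apply hP
    have h3 : DD Φ p'.1 (fr p'.2.1 p'.2.2) = DD Φ p.1 (fr p.2.1 p.2.2) := hp'.2
    rw [← h3]
    exact hp''.2
  · have h1 : {p : FrP | KF Φ p}ᶜ ∈ 𝓝 p := (isClosed_KF hS).isOpen_compl.mem_nhds hK
    filter_upwards [h1] with p' hp' hp''
    exact hp' hp''.1

theorem isCompact_D2 (hS : Symm Φ) : IsCompact (D2 Φ) := by
  refine (isCompact_sphere (0 : W) 1).of_isClosed_subset ?_ ?_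
  · rw [← isOpen_compl_iff, isOpen_iff_mem_nhds]
    intro w hw
    by_cases hn : ‖w‖ = 1
    · have h1 : ¬ 2 < finrank ℝ (Kr (A Φ w)) := fun h => hw ⟨hn, h⟩
      obtain ⟨δ, hδ, hg⟩ := exists_gap_near (A_sym hS w)
      have h2 : ∀ᶠ w' in 𝓝 w, ‖A Φ w' - A Φ w‖ < δ := by
        have h3 := (continuous_A Φ).continuousAt (x := w)
        have h4 := Metric.continuousAt_iff.1 h3 δ hδ
        obtain ⟨ε, hε, h5⟩ := h4
        filter_upwards [Metric.ball_mem_nhds w hε] with w' hw'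
        have := h5 hw'
        rwa [dist_eq_norm] at this
      filter_upwards [h2] with w' hw' hD2
      have h6 := (hg (A Φ w') (A_sym hS w') hw').1
      have h7 := finrank_split_w hS w
      have h8 := finrank_split_w hS w'
      have h9 : 2 < finrank ℝ (Kr (A Φ w')) := hD2.2
      omega
    · have h1 : {w : W | ‖w‖ = 1}ᶜ ∈ 𝓝 w :=
        (isClosed_eq continuous_norm continuous_const).isOpen_compl.mem_nhds hn
      filter_upwards [h1] with w' hw' hw''
      exact hw' hw''.1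
  · intro w hw
    rw [mem_sphere_zero_iff_norm]
    exact hw.1

/-- `AA` is compact. -/
theorem isCompact_AA (hS : Symm Φ) (hZ : ZeroFree Φ) : IsCompact (AA Φ) := by
  have h1 := (isCompact_KF_DD hS hZ (fun n => n ≠ 0)).image (f := fun p : FrP => p.1)
    continuous_fst
  convert h1 using 1
  ext w
  constructor
  · rintro ⟨hw1, hw2⟩
    obtain ⟨p, hp, rfl⟩ := exists_KF hS hw1
    refine ⟨p, ⟨hp, ?_⟩, rfl⟩
    intro h0
    apply hw2
    rw [← abs_DD_frame hS hZ hw1 (hp.frameAt hS hw1), h0, abs_zero]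
  · rintro ⟨p, ⟨hp, hne⟩, rfl⟩
    have hD := hp.mem_D
    rw [D_eq hS] at hD
    rcases hD with h1 | h2
    · refine ⟨h1, ?_⟩
      rw [← abs_DD_frame hS hZ h1 (hp.frameAt hS h1)]
      exact abs_ne_zero.2 hne
    · exact absurd (hp.DD_eq_zero hS hZ h2) hne

/-- `BB` is compact. -/
theorem isCompact_BB (hS : Symm Φ) (hZ : ZeroFree Φ) : IsCompact (BB Φ) := by
  have h1 := (isCompact_D2 hS).union
    ((isCompact_KF_DD hS hZ (fun n => n = 0)).image (f := fun p : FrP => p.1) continuous_fst)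
  convert h1 using 1
  ext w
  constructor
  · rintro ⟨hwD, hwA⟩
    rw [D_eq hS] at hwD
    rcases hwD with hw1 | hw2
    · right
      obtain ⟨p, hp, rfl⟩ := exists_KF hS hw1
      refine ⟨p, ⟨hp, ?_⟩, rfl⟩
      by_contra hne
      apply hwA
      refine ⟨hw1, ?_⟩
      rw [← abs_DD_frame hS hZ hw1 (hp.frameAt hS hw1)]
      exact abs_ne_zero.2 hne
    · exact Or.inl hw2
  · rintro (hw2 | ⟨p, ⟨hp, h0⟩, rfl⟩)
    · refine ⟨?_, fun hA => not_D1_D2 hA.1 hw2⟩
      rw [D_eq hS]; exact Or.inr hw2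
    · refine ⟨hp.mem_D, ?_⟩
      rintro ⟨hw1, hne⟩
      apply hne
      rw [← abs_DD_frame hS hZ hw1 (hp.frameAt hS hw1)]
      change DD Φ p.1 (fr p.2.1 p.2.2) = 0 at h0
      rw [h0, abs_zero]

end

end Pool.Agent.Flip
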