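import Pool.Agent.Lib_helper47.Flip.Base

/-!
# The degree function `DD` (block DD of the contract), part 1: general frames
-/

set_option autoImplicit false

namespace Pool.Agent.Flip

open scoped InnerProductSpace
open Module Set Topology Pool.Agent.Deg47

noncomputable section

variable {Φ : Sys}

/-- the parameter space `ℝ × ℝ⁶` -/
abbrev PP := ℝ × (Fin 6 → ℝ)

/-- The linear combination of the `b j` with coefficients `x`. -/
def lin6 (b : Fin 6 → V) (x : Fin 6 → ℝ) : V := ∑ j, x j • b j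

theorem DDmap_eq (w : W) (b : Fin 6 → V) (p : PP) :
    DDmap Φ w b p = e7.symm (q Φ (lin6 b p.2) - p.1 • w) := rfl

theorem DDmap_eq_zero {w : W} {b : Fin 6 → V} {p : PP} :
    DDmap Φ w b p = 0 ↔ q Φ (lin6 b p.2) = p.1 • w := by
  rw [DDmap_eq, map_eq_zero_iff e7.symm e7.symm.injective, sub_eq_zero]

theorem nd_iff {w : W} {b : Fin 6 → V} : ND Φ w b ↔ ∀ p : PP, DDmap Φ w b p = 0 → p = 0 := by
  constructor
  · intro h p hp
    obtain ⟨h0, h1⟩ := h p.1 p.2 (DDmap_eq_zero.1 hp)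
    exact Prod.ext h0 h1
  · intro h c x hcx
    have h1 := h (c, x) (DDmap_eq_zero.2 hcx)
    exact ⟨congrArg Prod.fst h1, congrArg Prod.snd h1⟩

theorem continuous_lin6 : Continuous (fun p : (Fin 6 → V) × (Fin 6 → ℝ) => lin6 p.1 p.2) := by
  unfold lin6
  fun_prop

theorem continuous_DDmap :
    Continuous (fun p : (W × (Fin 6 → V)) × PP => DDmap Φ p.1.1 p.1.2 p.2) := by
  have h1 : Continuous (fun p : (W × (Fin 6 → V)) × PP => lin6 p.1.2 p.2.2) :=
    Continuous.comp (g := fun p : (Fin 6 → V) × (Fin 6 → ℝ) => lin6 p.1 p.2)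
      (f := fun p : (W × (Fin 6 → V)) × PP => (p.1.2, p.2.2)) continuous_lin6 (by fun_prop)
  have h2 : Continuous (fun p : (W × (Fin 6 → V)) × PP => q Φ (lin6 p.1.2 p.2.2)) :=
    Continuous.comp (g := q Φ) (f := fun p : (W × (Fin 6 → V)) × PP => lin6 p.1.2 p.2.2)
      (continuous_q Φ) h1
  have h3 : Continuous (fun p : (W × (Fin 6 → V)) × PP =>
      q Φ (lin6 p.1.2 p.2.2) - p.2.1 • p.1.1) := h2.sub (by fun_prop)
  exact Continuous.comp (g := fun y : W => e7.symm y)
    (f := fun p : (W × (Fin 6 → V)) × PP => q Φ (lin6 p.1.2 p.2.2) - p.2.1 • p.1.1)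
    e7.symm.continuous h3

theorem continuous_DDmap' (w : W) (b : Fin 6 → V) : Continuous (DDmap Φ w b) :=
  Continuous.comp (g := fun p : (W × (Fin 6 → V)) × PP => DDmap Φ p.1.1 p.1.2 p.2)
    (f := fun y : PP => ((w, b), y)) (continuous_DDmap (Φ := Φ)) (by fun_prop)

theorem ND.adm {w : W} {b : Fin 6 → V} (h : ND Φ w b) : Adm (DDmap Φ w b) univ :=
  Adm.of_subset_compact isOpen_univ (continuous_DDmap' w b).continuousOn
    (isCompact_singleton (x := (0 : PP))) (subset_univ _) (fun x _ hx => nd_iff.1 h x hx)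

theorem lin6_smul (b : Fin 6 → V) (s : ℝ) (x : Fin 6 → ℝ) :
    lin6 b (s • x) = s • lin6 b x := by
  unfold lin6
  rw [Finset.smul_sum]
  refine Finset.sum_congr rfl fun j _ => ?_
  rw [Pi.smul_apply, smul_eq_mul, mul_smul]

/-- the weight `|y_0| + ∑ y_j²` -/
def Nw (y : PP) : ℝ := |y.1| + ∑ j : Fin 6, (y.2 j) ^ 2

theorem Nw_nonneg (y : PP) : 0 ≤ Nw y :=
  add_nonneg (abs_nonneg _) (Finset.sum_nonneg fun _ _ => sq_nonneg _)

theorem continuous_Nw : Continuous Nw := by unfold Nw; fun_prop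

theorem isCompact_Nw_le (R : ℝ) : IsCompact {y : PP | Nw y ≤ R} := by
  refine Metric.isCompact_of_isClosed_isBounded (isClosed_le continuous_Nw continuous_const) ?_
  refine (Metric.isBounded_closedBall (x := (0 : PP)) (r := R + 1)).subset ?_
  intro y hy
  have hy' : |y.1| + ∑ j : Fin 6, (y.2 j) ^ 2 ≤ R := hy
  have h1 : 0 ≤ ∑ j : Fin 6, (y.2 j) ^ 2 := Finset.sum_nonneg fun j _ => sq_nonneg _
  have h2 : 0 ≤ |y.1| := abs_nonneg _
  rw [mem_closedBall_zero_iff, Prod.norm_def, max_le_iff]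
  constructor
  · rw [Real.norm_eq_abs]; linarith
  · rw [pi_norm_le_iff_of_nonneg (by linarith)]
    intro j
    have h3 : (y.2 j) ^ 2 ≤ ∑ j : Fin 6, (y.2 j) ^ 2 :=
      Finset.single_le_sum (f := fun j => (y.2 j) ^ 2) (fun j _ => sq_nonneg _)
        (Finset.mem_univ j)
    rw [Real.norm_eq_abs]
    refine abs_le_of_sq_le_sq ?_ (by linarith)
    nlinarith

/-- the compact set of normalised vectors -/
def Sg : Set PP := {y | Nw y = 1}

theorem isCompact_Sg : IsCompact Sg :=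
  (isCompact_Nw_le 1).of_isClosed_subset (isClosed_eq continuous_Nw continuous_const)
    (fun _ hy => le_of_eq hy)

theorem Nw_pos {y : PP} (hy : y ≠ 0) : 0 < Nw y := by
  refine lt_of_le_of_ne (Nw_nonneg y) ?_
  intro h0
  apply hy
  have h1 : 0 ≤ ∑ j : Fin 6, (y.2 j) ^ 2 := Finset.sum_nonneg fun j _ => sq_nonneg _
  have h0' : 0 = |y.1| + ∑ j : Fin 6, (y.2 j) ^ 2 := h0
  have h2 : |y.1| = 0 := by linarith [abs_nonneg y.1]
  have h3 : ∑ j : Fin 6, (y.2 j) ^ 2 = 0 := by linarith [abs_nonneg y.1]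
  rw [Finset.sum_eq_zero_iff_of_nonneg fun j _ => sq_nonneg _] at h3
  refine Prod.ext (abs_eq_zero.1 h2) ?_
  funext j
  exact pow_eq_zero_iff two_ne_zero |>.1 (h3 j (Finset.mem_univ j))

theorem exists_scale (y : PP) (hy : y ≠ 0) : ∃ y' ∈ Sg,
    ∀ (w : W) (b : Fin 6 → V), DDmap Φ w b y = Nw y • DDmap Φ w b y' := by
  have hNpos : 0 < Nw y := Nw_pos hy
  set s := Real.sqrt (Nw y) with hs
  have hspos : 0 < s := Real.sqrt_pos.2 hNpos
  have hss : s ^ 2 = Nw y := Real.sq_sqrt hNpos.le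
  refine ⟨(y.1 / s ^ 2, s⁻¹ • y.2), ?_, ?_⟩
  · change |y.1 / s ^ 2| + ∑ j : Fin 6, ((s⁻¹ • y.2) j) ^ 2 = 1
    rw [abs_div, abs_of_pos (by positivity : 0 < s ^ 2)]
    have h4 : ∑ j : Fin 6, ((s⁻¹ • y.2) j) ^ 2 = (∑ j : Fin 6, (y.2 j) ^ 2) / s ^ 2 := by
      rw [Finset.sum_div]
      refine Finset.sum_congr rfl fun j _ => ?_
      rw [Pi.smul_apply, smul_eq_mul]
      field_simp
    rw [h4, ← add_div, hss]
    exact div_self hNpos.ne'
  · intro w b
    rw [← hss, DDmap_eq, DDmap_eq, ← map_smul]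
    congr 1
    change q Φ (lin6 b y.2) - y.1 • w = s ^ 2 • (q Φ (lin6 b (s⁻¹ • y.2)) - (y.1 / s ^ 2) • w)
    have e1 : s ^ 2 * s⁻¹ ^ 2 = 1 := by field_simp
    have e2 : s ^ 2 * (y.1 / s ^ 2) = y.1 := by field_simp
    rw [lin6_smul, q_smul, smul_sub, smul_smul, smul_smul, e1, e2, one_smul]

theorem nd_iff_Sg {w : W} {b : Fin 6 → V} : ND Φ w b ↔ ∀ y ∈ Sg, DDmap Φ w b y ≠ 0 := by
  rw [nd_iff]
  constructor
  · intro h y hy h0
    rw [h y h0] at hy
    have : |(0 : PP).1| + ∑ j : Fin 6, ((0 : PP).2 j) ^ 2 = 1 := hy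
    simp at this
  · intro h y hy
    by_contra hne
    obtain ⟨y', hy', hG⟩ := exists_scale (Φ := Φ) y hne
    rw [hG w b] at hy
    rcases smul_eq_zero.1 hy with h1 | h1
    · exact (Nw_pos hne).ne' h1
    · exact h y' hy' h1

theorem isOpen_nd : IsOpen {p : W × (Fin 6 → V) | ND Φ p.1 p.2} := by
  have h1 : {p : W × (Fin 6 → V) | ND Φ p.1 p.2} =
      {p | ∀ y ∈ Sg, (p, y) ∈ {r : (W × (Fin 6 → V)) × PP | DDmap Φ r.1.1 r.1.2 r.2 ≠ 0}} := by
    ext p
    exact nd_iff_Sg
  rw [h1]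
  have h2 : IsOpen {r : (W × (Fin 6 → V)) × PP | DDmap Φ r.1.1 r.1.2 r.2 ≠ 0} :=
    isOpen_ne.preimage (continuous_DDmap (Φ := Φ))
  rw [isOpen_iff_mem_nhds]
  intro p hp
  have h3 : ∀ y ∈ Sg, {r : (W × (Fin 6 → V)) × PP | DDmap Φ r.1.1 r.1.2 r.2 ≠ 0} ∈ 𝓝 (p, y) :=
    fun y hy => h2.mem_nhds (hp y hy)
  exact isCompact_Sg.eventually_forall_of_forall_eventually (x₀ := p)
    (P := fun p y => DDmap Φ p.1 p.2 y ≠ 0) (fun y hy => h3 y hy)

/-- Homotopy invariance of `DD`. -/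
theorem DD_path (w : ℝ → W) (b : ℝ → Fin 6 → V) (hw : ContinuousOn w (Icc 0 1))
    (hb : ContinuousOn b (Icc 0 1)) (hg : ∀ t ∈ Icc (0 : ℝ) 1, ND Φ (w t) (b t)) :
    DD Φ (w 0) (b 0) = DD Φ (w 1) (b 1) := by
  have h1 : ContinuousOn (fun p : ℝ × PP => (((w p.1, b p.1), p.2) : (W × (Fin 6 → V)) × PP))
      (Icc (0 : ℝ) 1 ×ˢ univ) := by
    refine ContinuousOn.prodMk (ContinuousOn.prodMk ?_ ?_) continuousOn_snd
    · exact hw.comp continuousOn_fst (fun p hp => hp.1)
    · exact hb.comp continuousOn_fst (fun p hp => hp.1)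
  have h2 : ContinuousOn (fun p : ℝ × PP => DDmap Φ (w p.1) (b p.1) p.2)
      (Icc (0 : ℝ) 1 ×ˢ univ) :=
    Continuous.comp_continuousOn (g := fun p : (W × (Fin 6 → V)) × PP => DDmap Φ p.1.1 p.1.2 p.2)
      (f := fun p : ℝ × PP => (((w p.1, b p.1), p.2) : (W × (Fin 6 → V)) × PP))
      (continuous_DDmap (Φ := Φ)) h1
  exact deg_homotopy (fun t y => DDmap Φ (w t) (b t) y) isOpen_univ h2
    (isCompact_singleton (x := (0 : PP))) (subset_univ _)
    (fun t ht x _ hx => nd_iff.1 (hg t ht) x hx)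

/-- `DD` is locally constant on the set of nondegenerate pairs. -/
theorem DD_locally_const {w : W} {b : Fin 6 → V} (h : ND Φ w b) :
    ∀ᶠ p : W × (Fin 6 → V) in 𝓝 (w, b), ND Φ p.1 p.2 ∧ DD Φ p.1 p.2 = DD Φ w b := by
  obtain ⟨ε, hε, hball⟩ := Metric.isOpen_iff.1 (isOpen_nd (Φ := Φ)) (w, b) h
  filter_upwards [Metric.ball_mem_nhds _ hε] with p hp
  refine ⟨hball hp, ?_⟩
  have hseg : ∀ t ∈ Icc (0 : ℝ) 1, ND Φ ((AffineMap.lineMap (w, b) p t : W × (Fin 6 → V)).1)
      ((AffineMap.lineMap (w, b) p t : W × (Fin 6 → V)).2) := by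
    intro t ht
    refine hball ?_
    refine (convex_ball (w, b) ε).segment_subset (Metric.mem_ball_self hε) hp ?_
    rw [segment_eq_image_lineMap]
    exact ⟨t, ht, rfl⟩
  have hc : Continuous (fun t : ℝ => (AffineMap.lineMap (w, b) p t : W × (Fin 6 → V))) :=
    AffineMap.lineMap_continuous
  have := DD_path (Φ := Φ) (fun t => (AffineMap.lineMap (w, b) p t : W × (Fin 6 → V)).1)
    (fun t => (AffineMap.lineMap (w, b) p t : W × (Fin 6 → V)).2)
    (continuous_fst.comp hc).continuousOn (continuous_snd.comp hc).continuousOn hseg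
  simp only [AffineMap.lineMap_apply_zero, AffineMap.lineMap_apply_one] at this
  exact this.symm

/-! ### growth and shifted targets -/

theorem ND.lower {w : W} {b : Fin 6 → V} (h : ND Φ w b) :
    ∃ c > 0, ∀ y, c * Nw y ≤ ‖DDmap Φ w b y‖ := by
  obtain ⟨c, hc, hcb⟩ := exists_lower_bound isCompact_Sg (continuous_DDmap' w b).continuousOn
    (nd_iff_Sg.1 h)
  refine ⟨c, hc, fun y => ?_⟩
  rcases eq_or_ne y 0 with rfl | hy
  · have : Nw (0 : PP) = 0 := by unfold Nw; simp
    rw [this, mul_zero]; exact norm_nonneg _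
  · obtain ⟨y', hy', hG⟩ := exists_scale (Φ := Φ) y hy
    rw [hG w b, norm_smul, Real.norm_of_nonneg (Nw_nonneg y), mul_comm]
    exact mul_le_mul_of_nonneg_left (hcb y' hy') (Nw_nonneg y)

/-- The degree does not depend on the target point. -/
theorem ND.deg_sub {w : W} {b : Fin 6 → V} (h : ND Φ w b) (u : PP) :
    Adm (fun y => DDmap Φ w b y - u) univ ∧
      deg (fun y => DDmap Φ w b y - u) univ = DD Φ w b := by
  obtain ⟨c, hc, hcb⟩ := h.lower
  have hK := isCompact_Nw_le (‖u‖ / c)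
  have hz : ∀ t ∈ Icc (0 : ℝ) 1, ∀ y ∈ (univ : Set PP), DDmap Φ w b y - t • u = 0 →
      y ∈ {y : PP | Nw y ≤ ‖u‖ / c} := by
    intro t ht y _ hy
    have h1 := hcb y
    rw [sub_eq_zero.1 hy, norm_smul, Real.norm_of_nonneg ht.1] at h1
    have h2 : t * ‖u‖ ≤ ‖u‖ := mul_le_of_le_one_left (norm_nonneg _) ht.2
    change Nw y ≤ ‖u‖ / c
    rw [le_div_iff₀ hc]; linarith
  have hcont : ContinuousOn (fun p : ℝ × PP => DDmap Φ w b p.2 - p.1 • u)
      (Icc (0 : ℝ) 1 ×ˢ univ) := by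
    refine Continuous.continuousOn ?_
    exact (Continuous.comp (g := DDmap Φ w b) (f := fun p : ℝ × PP => p.2)
      (continuous_DDmap' w b) continuous_snd).sub (by fun_prop)
  have h1 := deg_homotopy (fun t y => DDmap Φ w b y - t • u) isOpen_univ hcont hK
    (subset_univ _) hz
  simp only [zero_smul, sub_zero, one_smul] at h1
  constructor
  · refine Adm.of_subset_compact isOpen_univ ?_ hK (subset_univ _) ?_
    · exact ((continuous_DDmap' w b).sub continuous_const).continuousOn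
    · intro y hy h0
      exact hz 1 ⟨zero_le_one, le_rfl⟩ y hy (by rw [one_smul]; exact h0)
  · exact h1.symm

/-! ### symmetries -/

theorem lin6_J (b : Fin 6 → V) (x : Fin 6 → ℝ) : lin6 (fun j => J (b j)) x = J (lin6 b x) := by
  unfold lin6
  rw [map_sum]; simp only [map_smul]

/-- `DD(-w, i b) = - DD(w, b)`. -/
theorem DD_neg {w : W} {b : Fin 6 → V} (h : ND Φ w b) :
    ND Φ (-w) (fun j => J (b j)) ∧ DD Φ (-w) (fun j => J (b j)) = - DD Φ w b := by
  have h1 : ∀ y, DDmap Φ (-w) (fun j => J (b j)) y = -DDmap Φ w b y := by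
    intro y
    rw [DDmap_eq, DDmap_eq, lin6_J, q_J, smul_neg, ← map_neg]
    congr 1
    abel
  constructor
  · rw [nd_iff]
    intro p hp
    rw [h1, neg_eq_zero] at hp
    exact nd_iff.1 h p hp
  · have h3 : DDmap Φ (-w) (fun j => J (b j)) =
        fun y => (-(ContinuousLinearMap.id ℝ PP)) (DDmap Φ w b y) := by
      funext y
      rw [h1]; rfl
    have hdet : (-(ContinuousLinearMap.id ℝ PP)).det = -1 := by
      have : (-(ContinuousLinearMap.id ℝ PP)).det =
        LinearMap.det (-(LinearMap.id : PP →ₗ[ℝ] PP)) := rfl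
      rw [this, ← neg_one_smul ℝ, LinearMap.det_smul, LinearMap.det_id]
      have h7 : finrank ℝ PP = 7 := by simp
      rw [h7]
      norm_num
    unfold DD
    rw [h3, deg_comp_left h.adm _ (by rw [hdet]; norm_num), hdet]
    simp

/-! ### isotropic frames -/

theorem ND_of_isotropic (hZ : ZeroFree Φ) {w : W} (hw : w ≠ 0) {b : Fin 6 → V}
    (hb : LinearIndependent ℝ b)
    (hiso : ∀ x : Fin 6 → ℝ, ⟪A Φ w (∑ j, x j • b j), ∑ j, x j • b j⟫_ℝ = 0) : ND Φ w b := by
  intro c x hx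
  have h1 := hiso x
  rw [inner_A_self, hx, inner_smul_right, real_inner_self_eq_norm_sq] at h1
  have h2 : c = 0 := by
    rcases mul_eq_zero.1 h1 with h | h
    · exact h
    · exact absurd (pow_eq_zero_iff two_ne_zero |>.1 h) (norm_ne_zero_iff.2 hw)
  refine ⟨h2, ?_⟩
  rw [h2, zero_smul] at hx
  have h3 := hZ _ hx
  funext j
  exact (Fintype.linearIndependent_iff.1 hb) x h3 j

/-! ### base change -/

theorem lin6_baseChange (b : Fin 6 → V) (M : Matrix (Fin 6) (Fin 6) ℝ) (x : Fin 6 → ℝ) :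
    lin6 (fun i => ∑ j, M i j • b j) x = lin6 b (Matrix.toLin' M.transpose x) := by
  unfold lin6
  have h1 : ∀ j : Fin 6, (Matrix.toLin' M.transpose x) j = ∑ i, M i j * x i := by
    intro j
    rw [Matrix.toLin'_apply, Matrix.mulVec, dotProduct]
    rfl
  simp only [h1, Finset.smul_sum, Finset.sum_smul, smul_smul]
  rw [Finset.sum_comm]
  refine Finset.sum_congr rfl fun i _ => Finset.sum_congr rfl fun j _ => ?_
  rw [mul_comm]

/-- Base change for `DD`. -/
theorem DD_basis {w : W} {b : Fin 6 → V} (h : ND Φ w b)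
    (M : Matrix (Fin 6) (Fin 6) ℝ) (hM : M.det ≠ 0) :
    ND Φ w (fun i => ∑ j, M i j • b j) ∧
    DD Φ w (fun i => ∑ j, M i j • b j) = (SignType.sign M.det : ℤ) * DD Φ w b := by
  have hunit : IsUnit M.transpose := by
    rw [Matrix.isUnit_iff_isUnit_det, Matrix.det_transpose]; exact isUnit_iff_ne_zero.2 hM
  let L6 : (Fin 6 → ℝ) ≃ₗ[ℝ] (Fin 6 → ℝ) := Matrix.toLinearEquiv' M.transpose hunit.invertible
  have hL6 : ∀ x, L6 x = Matrix.toLin' M.transpose x := fun x => rfl
  let L : PP ≃L[ℝ] PP := ((LinearEquiv.refl ℝ ℝ).prodCongr L6).toContinuousLinearEquiv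
  have hL : ∀ p : PP, L p = (p.1, Matrix.toLin' M.transpose p.2) := fun p => rfl
  have hG : ∀ p, DDmap Φ w (fun i => ∑ j, M i j • b j) p = DDmap Φ w b (L p) := by
    intro p
    rw [DDmap_eq, DDmap_eq, lin6_baseChange, hL]
  constructor
  · rw [nd_iff]
    intro y hy
    rw [hG] at hy
    have := nd_iff.1 h _ hy
    exact (map_eq_zero_iff L L.injective).1 this
  · have h1 : DDmap Φ w (fun i => ∑ j, M i j • b j) = fun y => DDmap Φ w b (L y) := by
      funext y
      exact hG y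
    have h2 := deg_comp_right h.adm L
    rw [preimage_univ] at h2
    unfold DD
    rw [h1, h2]
    have h3 : (L : PP →L[ℝ] PP).det = M.det := by
      have h4 : (L : PP →L[ℝ] PP).det =
          LinearMap.det (LinearMap.prodMap (LinearMap.id : ℝ →ₗ[ℝ] ℝ)
            (Matrix.toLin' M.transpose)) := rfl
      rw [h4, LinearMap.det_prodMap, LinearMap.det_id, one_mul, LinearMap.det_toLin',
        Matrix.det_transpose]
    rw [h3]

/-! ### extension kills the degree -/

theorem DD_eq_zero_of_extend {w : W} {b : Fin 6 → V} (e : V)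
    (h : ∀ (c s : ℝ) (x : Fin 6 → ℝ), q Φ ((∑ j, x j • b j) + s • e) = c • w →
      c = 0 ∧ s = 0 ∧ x = 0) : DD Φ w b = 0 := by
  -- the auxiliary continuous function `|x|`
  let r : PP → ℝ := fun y => Real.sqrt (∑ j : Fin 6, (y.2 j) ^ 2)
  have hr : Continuous r := by
    refine Real.continuous_sqrt.comp ?_
    fun_prop
  have hr0 : ∀ y : PP, r y = 0 → y.2 = 0 := by
    intro y hy
    funext j
    have h1 : ∑ j : Fin 6, (y.2 j) ^ 2 = 0 :=
      (Real.sqrt_eq_zero (Finset.sum_nonneg fun _ _ => sq_nonneg _)).1 hy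
    rw [Finset.sum_eq_zero_iff_of_nonneg fun j _ => sq_nonneg _] at h1
    exact pow_eq_zero_iff two_ne_zero |>.1 (h1 j (Finset.mem_univ j))
  -- first homotopy: add `t |x| e`
  have hz1 : ∀ t ∈ Icc (0 : ℝ) 1, ∀ y ∈ (univ : Set PP),
      e7.symm (q Φ (lin6 b y.2 + (t * r y) • e) - y.1 • w) = 0 → y ∈ ({0} : Set PP) := by
    intro t _ y _ hy
    rw [map_eq_zero_iff e7.symm e7.symm.injective] at hy
    have h1 := h y.1 (t * r y) y.2 (sub_eq_zero.1 hy)
    rw [mem_singleton_iff]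
    exact Prod.ext h1.1 h1.2.2
  have hlc : Continuous (lin6 b) :=
    Continuous.comp (g := fun p : (Fin 6 → V) × (Fin 6 → ℝ) => lin6 p.1 p.2)
      (f := fun y => (b, y)) continuous_lin6 (by fun_prop)
  have hc1 : ContinuousOn
      (fun p : ℝ × PP => e7.symm (q Φ (lin6 b p.2.2 + (p.1 * r p.2) • e) - p.2.1 • w))
      (Icc (0 : ℝ) 1 ×ˢ univ) := by
    refine Continuous.continuousOn ?_
    have h1 : Continuous (fun p : ℝ × PP => lin6 b p.2.2 + (p.1 * r p.2) • e) :=
      (hlc.comp (continuous_snd.comp continuous_snd)).add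
        ((continuous_fst.mul (hr.comp continuous_snd)).smul continuous_const)
    have h2 : Continuous (fun p : ℝ × PP => q Φ (lin6 b p.2.2 + (p.1 * r p.2) • e) - p.2.1 • w) :=
      (Continuous.comp (g := q Φ) (f := fun p : ℝ × PP => lin6 b p.2.2 + (p.1 * r p.2) • e)
        (continuous_q Φ) h1).sub (by fun_prop)
    exact Continuous.comp (g := fun y : W => e7.symm y)
      (f := fun p : ℝ × PP => q Φ (lin6 b p.2.2 + (p.1 * r p.2) • e) - p.2.1 • w)
      e7.symm.continuous h2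
  have e1 := deg_homotopy (fun t y => e7.symm (q Φ (lin6 b y.2 + (t * r y) • e) - y.1 • w))
    isOpen_univ hc1 (isCompact_singleton (x := (0 : PP))) (subset_univ _) hz1
  -- second homotopy: shrink `b`
  have hz2 : ∀ t ∈ Icc (0 : ℝ) 1, ∀ y ∈ (univ : Set PP),
      e7.symm (q Φ ((1 - t) • lin6 b y.2 + r y • e) - y.1 • w) = 0 → y ∈ ({0} : Set PP) := by
    intro t _ y _ hy
    rw [map_eq_zero_iff e7.symm e7.symm.injective] at hy
    rw [← lin6_smul] at hy
    have h1 := h y.1 (r y) ((1 - t) • y.2) (sub_eq_zero.1 hy)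
    rw [mem_singleton_iff]
    exact Prod.ext h1.1 (hr0 y h1.2.1)
  have hc2 : ContinuousOn
      (fun p : ℝ × PP => e7.symm (q Φ ((1 - p.1) • lin6 b p.2.2 + r p.2 • e) - p.2.1 • w))
      (Icc (0 : ℝ) 1 ×ˢ univ) := by
    refine Continuous.continuousOn ?_
    have h1 : Continuous (fun p : ℝ × PP => (1 - p.1) • lin6 b p.2.2 + r p.2 • e) :=
      ((continuous_const.sub continuous_fst).smul (hlc.comp (continuous_snd.comp
        continuous_snd))).add ((hr.comp continuous_snd).smul continuous_const)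
    have h2 : Continuous (fun p : ℝ × PP =>
        q Φ ((1 - p.1) • lin6 b p.2.2 + r p.2 • e) - p.2.1 • w) :=
      (Continuous.comp (g := q Φ) (f := fun p : ℝ × PP => (1 - p.1) • lin6 b p.2.2 + r p.2 • e)
        (continuous_q Φ) h1).sub (by fun_prop)
    exact Continuous.comp (g := fun y : W => e7.symm y)
      (f := fun p : ℝ × PP => q Φ ((1 - p.1) • lin6 b p.2.2 + r p.2 • e) - p.2.1 • w)
      e7.symm.continuous h2
  have e2 := deg_homotopy (fun t y => e7.symm (q Φ ((1 - t) • lin6 b y.2 + r y • e) - y.1 • w))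
    isOpen_univ hc2 (isCompact_singleton (x := (0 : PP))) (subset_univ _) hz2
  -- the final map has image in a plane
  obtain ⟨u, hu⟩ : ∃ u : W, u ∉ Submodule.span ℝ {q Φ e, w} := by
    by_contra hcon
    push Not at hcon
    have h1 : Submodule.span ℝ {q Φ e, w} = ⊤ := by
      rw [eq_top_iff]; intro u _; exact hcon u
    have h2 : finrank ℝ (Submodule.span ℝ ({q Φ e, w} : Set W)) ≤ 2 := by
      classical
      have h3 := finrank_span_finset_le_card (R := ℝ) ({q Φ e, w} : Finset W)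
      have h4 : (({q Φ e, w} : Finset W) : Set W) = {q Φ e, w} := by simp
      rw [h4] at h3
      exact h3.trans Finset.card_le_two
    rw [h1, finrank_top, finrank_euclideanSpace] at h2
    simp at h2
  have hz3 : ∀ t ∈ Icc (0 : ℝ) 1, ∀ y ∈ (univ : Set PP),
      e7.symm (q Φ (r y • e) - y.1 • w - t • u) = 0 → y ∈ ({0} : Set PP) := by
    intro t _ y _ hy
    rw [map_eq_zero_iff e7.symm e7.symm.injective] at hy
    have h1 : t = 0 := by
      by_contra ht
      apply hu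
      have h2 : t • u = q Φ (r y • e) - y.1 • w := (sub_eq_zero.1 hy).symm
      have h3 : u = t⁻¹ • (q Φ (r y • e) - y.1 • w) := by
        rw [← h2, smul_smul, inv_mul_cancel₀ ht, one_smul]
      rw [h3, q_smul]
      refine Submodule.smul_mem _ _ (Submodule.sub_mem _ (Submodule.smul_mem _ _ ?_)
        (Submodule.smul_mem _ _ ?_))
      · exact Submodule.subset_span (by simp)
      · exact Submodule.subset_span (by simp)
    refine hz2 1 ⟨zero_le_one, le_rfl⟩ y (mem_univ _) ?_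
    rw [h1, zero_smul, sub_zero] at hy
    rw [sub_self, zero_smul, zero_add, hy, map_zero]
  have hc3 : ContinuousOn
      (fun p : ℝ × PP => e7.symm (q Φ (r p.2 • e) - p.2.1 • w - p.1 • u))
      (Icc (0 : ℝ) 1 ×ˢ univ) := by
    refine Continuous.continuousOn ?_
    have h1 : Continuous (fun p : ℝ × PP => r p.2 • e) :=
      (hr.comp continuous_snd).smul continuous_const
    have h2 : Continuous (fun p : ℝ × PP => q Φ (r p.2 • e) - p.2.1 • w - p.1 • u) :=
      ((Continuous.comp (g := q Φ) (f := fun p : ℝ × PP => r p.2 • e)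
        (continuous_q Φ) h1).sub (by fun_prop)).sub (by fun_prop)
    exact Continuous.comp (g := fun y : W => e7.symm y)
      (f := fun p : ℝ × PP => q Φ (r p.2 • e) - p.2.1 • w - p.1 • u) e7.symm.continuous h2
  have e3 := deg_homotopy (fun t y => e7.symm (q Φ (r y • e) - y.1 • w - t • u))
    isOpen_univ hc3 (isCompact_singleton (x := (0 : PP))) (subset_univ _) hz3
  have e4 : deg (fun y : PP => e7.symm (q Φ (r y • e) - y.1 • w - (1 : ℝ) • u)) univ = 0 := by
    refine deg_eq_zero isOpen_univ ?_ ?_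
    · exact (hc3.comp (f := fun y : PP => ((1 : ℝ), y)) (by fun_prop)
        (fun y _ => ⟨⟨zero_le_one, le_rfl⟩, mem_univ _⟩))
    · intro y _ h0
      have h1 := hz3 1 ⟨zero_le_one, le_rfl⟩ y (mem_univ _) h0
      rw [mem_singleton_iff] at h1
      rw [h1, map_eq_zero_iff e7.symm e7.symm.injective] at h0
      have h2 : r 0 = 0 := by
        change Real.sqrt (∑ j : Fin 6, ((0 : PP).2 j) ^ 2) = 0
        simp
      rw [h2, zero_smul, q_zero] at h0
      apply hu
      have h3 : u = 0 := by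
        simpa using h0
      rw [h3]; exact Submodule.zero_mem _
  simp only [zero_mul, zero_smul, add_zero, one_mul, sub_zero, one_smul, sub_self, zero_add]
    at e1 e2 e3 e4
  have e5 : DD Φ w b = deg (fun y : PP => e7.symm (q Φ (lin6 b y.2) - y.1 • w)) univ := rfl
  rw [e5, e1, e2, e3, e4]

end

end Pool.Agent.Flip
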