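import Mathlib

/-!
# Symmetric operators anticommuting with a complex structure

`T` is a symmetric operator on a finite-dimensional real inner product space `E`, `J` an isometric
complex structure with `T J = - J T`. The spectrum of `T` is symmetric; we count dimensions,
compute the sign of the determinant and extend isotropic subspaces.
-/

namespace Pool.Agent.Flip

open Module Submodule
open scoped InnerProductSpace RealInnerProductSpace

noncomputable section

variable {E : Type*} [NormedAddCommGroup E] [InnerProductSpace ℝ E] [FiniteDimensional ℝ E]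

/-- `T` symmetric, `J` an isometric complex structure, `T J = - J T`. -/
structure AntiPair (T J : E →ₗ[ℝ] E) : Prop where
  symm : T.IsSymmetric
  Jsq : ∀ x, J (J x) = -x
  Jiso : ∀ x y, ⟪J x, J y⟫_ℝ = ⟪x, y⟫_ℝ
  anti : ∀ x, T (J x) = -J (T x)

namespace AntiPair

variable {T J : E →ₗ[ℝ] E}

theorem J_injective (h : AntiPair T J) : Function.Injective J := by
  intro x y hxy
  have := congrArg J hxy
  rw [h.Jsq, h.Jsq] at this
  exact neg_injective this

theorem neg (h : AntiPair T J) : AntiPair (-T) J where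
  symm := by
    intro x y
    simp only [LinearMap.neg_apply, inner_neg_left, inner_neg_right]
    rw [h.symm x y]
  Jsq := h.Jsq
  Jiso := h.Jiso
  anti := by intro x; simp [h.anti]

theorem form_J (h : AntiPair T J) (x : E) : ⟪T (J x), J x⟫_ℝ = -⟪T x, x⟫_ℝ := by
  rw [h.anti, inner_neg_left, h.Jiso]

end AntiPair

section Spec

variable {T : E →ₗ[ℝ] E} (hT : T.IsSymmetric) {n : ℕ} (hn : finrank ℝ E = n)

/-- span of the eigenvectors with index in a set -/
def specSpan (p : Fin n → Prop) : Submodule ℝ E :=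
  span ℝ (Set.range fun i : {i // p i} => hT.eigenvectorBasis hn i.1)

theorem mem_specSpan (p : Fin n → Prop) (x : E) :
    x ∈ specSpan hT hn p ↔ ∀ i, ¬ p i → ⟪hT.eigenvectorBasis hn i, x⟫_ℝ = 0 := by
  constructor
  · intro hx i hi
    induction hx using Submodule.span_induction with
    | mem x hx =>
      obtain ⟨j, rfl⟩ := hx
      have hij : i ≠ j.1 := fun h => hi (h ▸ j.2)
      exact (hT.eigenvectorBasis hn).orthonormal.2 hij
    | zero => simp
    | add x y _ _ hx hy => rw [inner_add_right, hx, hy, add_zero]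
    | smul a x _ hx => rw [inner_smul_right, hx, mul_zero]
  · intro hx
    rw [← (hT.eigenvectorBasis hn).sum_repr x]
    refine Submodule.sum_mem _ fun i _ => ?_
    rw [(hT.eigenvectorBasis hn).repr_apply_apply]
    by_cases hi : p i
    · exact Submodule.smul_mem _ _ (subset_span ⟨⟨i, hi⟩, rfl⟩)
    · rw [hx i hi, zero_smul]; exact Submodule.zero_mem _

theorem finrank_specSpan (p : Fin n → Prop) [DecidablePred p] :
    finrank ℝ (specSpan hT hn p) = (Finset.univ.filter p).card := by
  have hli : LinearIndependent ℝ (fun i : {i // p i} => hT.eigenvectorBasis hn i.1) :=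
    (hT.eigenvectorBasis hn).orthonormal.linearIndependent.comp _ Subtype.val_injective
  rw [specSpan, finrank_span_eq_card hli, Fintype.card_subtype]

theorem form_eq_sum (x : E) : ⟪T x, x⟫_ℝ = ∑ i, hT.eigenvalues hn i * ⟪hT.eigenvectorBasis hn i, x⟫_ℝ ^ 2 := by
  have h1 : ⟪T x, x⟫_ℝ = ∑ i, ⟪T x, hT.eigenvectorBasis hn i⟫_ℝ * ⟪hT.eigenvectorBasis hn i, x⟫_ℝ := ((hT.eigenvectorBasis hn).sum_inner_mul_inner _ _).symm
  rw [h1]
  refine Finset.sum_congr rfl fun i _ => ?_
  have h2 : ⟪T x, hT.eigenvectorBasis hn i⟫_ℝ = hT.eigenvalues hn i * ⟪hT.eigenvectorBasis hn i, x⟫_ℝ := by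
    rw [hT x (hT.eigenvectorBasis hn i), hT.apply_eigenvectorBasis hn i]
    simp only [RCLike.ofReal_real_eq_id, id_eq]
    rw [inner_smul_right, real_inner_comm]
  rw [h2]; ring

theorem inner_T_eigen (x : E) (i : Fin n) : ⟪hT.eigenvectorBasis hn i, T x⟫_ℝ = hT.eigenvalues hn i * ⟪hT.eigenvectorBasis hn i, x⟫_ℝ := by
  rw [← hT (hT.eigenvectorBasis hn i) x, hT.apply_eigenvectorBasis hn i]
  simp only [RCLike.ofReal_real_eq_id, id_eq]
  rw [real_inner_smul_left]

theorem ker_eq_specSpan : LinearMap.ker T = specSpan hT hn (fun i => hT.eigenvalues hn i = 0) := by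
  ext x
  rw [LinearMap.mem_ker, mem_specSpan]
  constructor
  · intro hx i hi
    have := inner_T_eigen hT hn x i
    rw [hx, inner_zero_right] at this
    rcases mul_eq_zero.1 this.symm with h | h
    · exact absurd h hi
    · exact h
  · intro hx
    rw [← (hT.eigenvectorBasis hn).sum_repr (T x)]
    refine Finset.sum_eq_zero fun i _ => ?_
    rw [(hT.eigenvectorBasis hn).repr_apply_apply, inner_T_eigen hT hn x i]
    by_cases hi : hT.eigenvalues hn i = 0
    · rw [hi, zero_mul, zero_smul]
    · rw [hx i hi, mul_zero, zero_smul]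

end Spec

section Count

variable {T J : E →ₗ[ℝ] E} (h : AntiPair T J) {n : ℕ} (hn : finrank ℝ E = n)

include h hn in
theorem card_pos_le_card_neg :
    (Finset.univ.filter fun i => 0 < h.symm.eigenvalues hn i).card ≤ (Finset.univ.filter fun i => h.symm.eigenvalues hn i < 0).card := by
  set P := specSpan h.symm hn (fun i => 0 < h.symm.eigenvalues hn i) with hP
  set Q := specSpan h.symm hn (fun i => ¬ h.symm.eigenvalues hn i < 0) with hQ
  have hdis : Disjoint (P.map J) Q := by
    rw [Submodule.disjoint_def]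
    rintro _ ⟨x, hx, rfl⟩ hxQ
    have h1 : 0 ≤ ⟪T (J x), J x⟫_ℝ := by
      rw [form_eq_sum h.symm hn]
      refine Finset.sum_nonneg fun i _ => ?_
      by_cases hi : h.symm.eigenvalues hn i < 0
      · rw [(mem_specSpan h.symm hn _ _).1 hxQ i (not_not.2 hi)]; simp
      · exact mul_nonneg (not_lt.1 hi) (sq_nonneg _)
    rw [h.form_J] at h1
    have h2 : ∀ i, h.symm.eigenvalues hn i * ⟪h.symm.eigenvectorBasis hn i, x⟫_ℝ ^ 2 = 0 := by
      have h3 : ∀ i ∈ Finset.univ, 0 ≤ h.symm.eigenvalues hn i * ⟪h.symm.eigenvectorBasis hn i, x⟫_ℝ ^ 2 := by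
        intro i _
        by_cases hi : 0 < h.symm.eigenvalues hn i
        · exact mul_nonneg hi.le (sq_nonneg _)
        · rw [(mem_specSpan h.symm hn _ _).1 hx i hi]; simp
      have h4 : ∑ i, h.symm.eigenvalues hn i * ⟪h.symm.eigenvectorBasis hn i, x⟫_ℝ ^ 2 = 0 := by
        rw [← form_eq_sum h.symm hn]
        have := Finset.sum_nonneg h3
        rw [← form_eq_sum h.symm hn] at this
        linarith
      intro i
      exact (Finset.sum_eq_zero_iff_of_nonneg h3).1 h4 i (Finset.mem_univ i)
    have h5 : ∀ i, ⟪h.symm.eigenvectorBasis hn i, x⟫_ℝ = 0 := by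
      intro i
      by_cases hi : 0 < h.symm.eigenvalues hn i
      · rcases mul_eq_zero.1 (h2 i) with h6 | h6
        · exact absurd h6 hi.ne'
        · exact pow_eq_zero_iff two_ne_zero |>.1 h6
      · exact (mem_specSpan h.symm hn _ _).1 hx i hi
    have hx0 : x = 0 := by
      rw [← (h.symm.eigenvectorBasis hn).sum_repr x]
      refine Finset.sum_eq_zero fun i _ => ?_
      rw [(h.symm.eigenvectorBasis hn).repr_apply_apply, h5 i, zero_smul]
    rw [hx0, map_zero]
  have h1 : finrank ℝ (P.map J) = finrank ℝ P :=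
    ((Submodule.equivMapOfInjective J h.J_injective P).finrank_eq).symm
  have h2 : finrank ℝ (P.map J) + finrank ℝ Q ≤ finrank ℝ E :=
    Submodule.finrank_add_finrank_le_of_disjoint hdis
  rw [h1, hP, hQ, finrank_specSpan, finrank_specSpan, hn] at h2
  have h3 : (Finset.univ.filter fun i => h.symm.eigenvalues hn i < 0).card +
      (Finset.univ.filter fun i => ¬ h.symm.eigenvalues hn i < 0).card = n := by
    rw [Finset.card_filter_add_card_filter_not]; simp
  omega

/-- Number of positive eigenvalues = number of negative eigenvalues. -/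
theorem finrank_specSpan_pos_eq_neg :
    finrank ℝ (specSpan h.symm hn (fun i => 0 < h.symm.eigenvalues hn i)) =
      finrank ℝ (specSpan h.symm hn (fun i => h.symm.eigenvalues hn i < 0)) := by
  have key : ∀ {T J : E →ₗ[ℝ] E} (h : AntiPair T J),
      finrank ℝ (specSpan h.symm hn (fun i => 0 < h.symm.eigenvalues hn i)) ≤
      finrank ℝ (specSpan h.symm hn (fun i => h.symm.eigenvalues hn i < 0)) := by
    intro T J h
    rw [finrank_specSpan, finrank_specSpan]
    exact card_pos_le_card_neg h hn
  refine le_antisymm (key h) ?_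
  -- apply the same argument with the roles of `P`, `N` exchanged
  set P := specSpan h.symm hn (fun i => h.symm.eigenvalues hn i < 0) with hP
  set Q := specSpan h.symm hn (fun i => ¬ 0 < h.symm.eigenvalues hn i) with hQ
  have hdis : Disjoint (P.map J) Q := by
    rw [Submodule.disjoint_def]
    rintro _ ⟨x, hx, rfl⟩ hxQ
    have h1 : ⟪T (J x), J x⟫_ℝ ≤ 0 := by
      rw [form_eq_sum h.symm hn]
      refine Finset.sum_nonpos fun i _ => ?_
      by_cases hi : 0 < h.symm.eigenvalues hn i
      · rw [(mem_specSpan h.symm hn _ _).1 hxQ i (not_not.2 hi)]; simp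
      · exact mul_nonpos_of_nonpos_of_nonneg (not_lt.1 hi) (sq_nonneg _)
    rw [h.form_J] at h1
    have h3 : ∀ i ∈ Finset.univ, h.symm.eigenvalues hn i * ⟪h.symm.eigenvectorBasis hn i, x⟫_ℝ ^ 2 ≤ 0 := by
      intro i _
      by_cases hi : h.symm.eigenvalues hn i < 0
      · exact mul_nonpos_of_nonpos_of_nonneg hi.le (sq_nonneg _)
      · rw [(mem_specSpan h.symm hn _ _).1 hx i hi]; simp
    have h4 : ∑ i, h.symm.eigenvalues hn i * ⟪h.symm.eigenvectorBasis hn i, x⟫_ℝ ^ 2 = 0 := by
      rw [← form_eq_sum h.symm hn]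
      have := Finset.sum_nonpos h3
      rw [← form_eq_sum h.symm hn] at this
      linarith
    have h5 : ∀ i, ⟪h.symm.eigenvectorBasis hn i, x⟫_ℝ = 0 := by
      intro i
      by_cases hi : h.symm.eigenvalues hn i < 0
      · rcases mul_eq_zero.1 ((Finset.sum_eq_zero_iff_of_nonpos h3).1 h4 i (Finset.mem_univ i))
          with h6 | h6
        · exact absurd h6 hi.ne
        · exact pow_eq_zero_iff two_ne_zero |>.1 h6
      · exact (mem_specSpan h.symm hn _ _).1 hx i hi
    have hx0 : x = 0 := by
      rw [← (h.symm.eigenvectorBasis hn).sum_repr x]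
      refine Finset.sum_eq_zero fun i _ => ?_
      rw [(h.symm.eigenvectorBasis hn).repr_apply_apply, h5 i, zero_smul]
    rw [hx0, map_zero]
  have h1 : finrank ℝ (P.map J) = finrank ℝ P :=
    ((Submodule.equivMapOfInjective J h.J_injective P).finrank_eq).symm
  have h2 : finrank ℝ (P.map J) + finrank ℝ Q ≤ finrank ℝ E :=
    Submodule.finrank_add_finrank_le_of_disjoint hdis
  rw [h1, hP, hQ, finrank_specSpan, finrank_specSpan, hn] at h2
  rw [hP, finrank_specSpan, finrank_specSpan]
  have h3 : (Finset.univ.filter fun i => 0 < h.symm.eigenvalues hn i).card +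
      (Finset.univ.filter fun i => ¬ 0 < h.symm.eigenvalues hn i).card = n := by
    rw [Finset.card_filter_add_card_filter_not]; simp
  omega

/-- `2 * #{negative eigenvalues} + dim ker T = dim E`. -/
theorem two_mul_finrank_neg_add_ker :
    2 * finrank ℝ (specSpan h.symm hn (fun i => h.symm.eigenvalues hn i < 0)) +
      finrank ℝ (LinearMap.ker T) = n := by
  have h1 := finrank_specSpan_pos_eq_neg h hn
  rw [ker_eq_specSpan h.symm hn, finrank_specSpan, finrank_specSpan] at *
  have h2 : (Finset.univ.filter fun i => h.symm.eigenvalues hn i < 0).card +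
      (Finset.univ.filter fun i => ¬ h.symm.eigenvalues hn i < 0).card = n := by
    rw [Finset.card_filter_add_card_filter_not]; simp
  have h3 : (Finset.univ.filter fun i => ¬ h.symm.eigenvalues hn i < 0).card =
      (Finset.univ.filter fun i => h.symm.eigenvalues hn i = 0).card + (Finset.univ.filter fun i => 0 < h.symm.eigenvalues hn i).card := by
    rw [← Finset.card_union_of_disjoint]
    · congr 1
      ext i
      simp only [Finset.mem_filter, Finset.mem_univ, true_and, Finset.mem_union, not_lt]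
      constructor
      · intro hi
        rcases hi.lt_or_eq with h' | h'
        · exact Or.inr h'
        · exact Or.inl h'.symm
      · rintro (h' | h')
        · exact h'.ge
        · exact h'.le
    · rw [Finset.disjoint_filter]
      intro i _ h' h''
      exact h''.ne' h'
  omega

include h hn in
/-- nonpositive subspace of dimension `(dim E + dim ker T) / 2` -/
theorem exists_nonpos_subspace :
    ∃ N : Submodule ℝ E, (∀ x ∈ N, ⟪T x, x⟫_ℝ ≤ 0) ∧
      (∀ x ∈ N, ⟪T x, x⟫_ℝ = 0 → T x = 0) ∧
      2 * finrank ℝ N = n + finrank ℝ (LinearMap.ker T) := by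
  refine ⟨specSpan h.symm hn (fun i => h.symm.eigenvalues hn i ≤ 0), ?_, ?_, ?_⟩
  · intro x hx
    rw [form_eq_sum h.symm hn]
    refine Finset.sum_nonpos fun i _ => ?_
    by_cases hi : h.symm.eigenvalues hn i ≤ 0
    · exact mul_nonpos_of_nonpos_of_nonneg hi (sq_nonneg _)
    · rw [(mem_specSpan h.symm hn _ _).1 hx i hi]; simp
  · intro x hx hx0
    have h3 : ∀ i ∈ Finset.univ, h.symm.eigenvalues hn i * ⟪h.symm.eigenvectorBasis hn i, x⟫_ℝ ^ 2 ≤ 0 := by
      intro i _
      by_cases hi : h.symm.eigenvalues hn i ≤ 0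
      · exact mul_nonpos_of_nonpos_of_nonneg hi (sq_nonneg _)
      · rw [(mem_specSpan h.symm hn _ _).1 hx i hi]; simp
    rw [form_eq_sum h.symm hn] at hx0
    rw [← (h.symm.eigenvectorBasis hn).sum_repr (T x)]
    refine Finset.sum_eq_zero fun i _ => ?_
    rw [(h.symm.eigenvectorBasis hn).repr_apply_apply, inner_T_eigen h.symm hn x i]
    rcases mul_eq_zero.1 ((Finset.sum_eq_zero_iff_of_nonpos h3).1 hx0 i (Finset.mem_univ i))
      with h6 | h6
    · rw [h6, zero_mul, zero_smul]
    · rw [(pow_eq_zero_iff two_ne_zero).1 h6, mul_zero, zero_smul]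
  · have h1 := two_mul_finrank_neg_add_ker h hn
    rw [ker_eq_specSpan h.symm hn, finrank_specSpan, finrank_specSpan] at *
    have h3 : (Finset.univ.filter fun i => h.symm.eigenvalues hn i ≤ 0).card =
        (Finset.univ.filter fun i => h.symm.eigenvalues hn i = 0).card +
          (Finset.univ.filter fun i => h.symm.eigenvalues hn i < 0).card := by
      rw [← Finset.card_union_of_disjoint]
      · congr 1
        ext i
        simp only [Finset.mem_filter, Finset.mem_univ, true_and, Finset.mem_union]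
        rw [le_iff_eq_or_lt]
      · rw [Finset.disjoint_filter]
        intro i _ h' h''
        exact h''.ne h'
    omega

end Count

section Extend

variable {T J : E →ₗ[ℝ] E}

omit [FiniteDimensional ℝ E] in
theorem form_add_smul (hT : T.IsSymmetric) (x y : E) (s : ℝ) :
    ⟪T (x + s • y), x + s • y⟫_ℝ = ⟪T x, x⟫_ℝ + 2 * s * ⟪T x, y⟫_ℝ + s ^ 2 * ⟪T y, y⟫_ℝ := by
  rw [map_add, map_smul, inner_add_left, inner_add_right, inner_add_right,
    real_inner_smul_left, real_inner_smul_left, inner_smul_right, inner_smul_right,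
    hT y x, real_inner_comm (T x) y]
  ring

/-- A 6-dimensional isotropic subspace of a 10-dimensional space extends to a 7-dimensional one
as soon as `dim ker T ≥ 4`. -/
theorem isotropic_extend (h : AntiPair T J) (hE : finrank ℝ E = 10)
    (hk : 4 ≤ finrank ℝ (LinearMap.ker T)) (F : Submodule ℝ E) (hF : finrank ℝ F = 6)
    (hiso : ∀ x ∈ F, ⟪T x, x⟫_ℝ = 0) :
    ∃ e : E, e ∉ F ∧ ∀ x ∈ F, ∀ s : ℝ, ⟪T (x + s • e), x + s • e⟫_ℝ = 0 := by
  have hbil : ∀ x ∈ F, ∀ y ∈ F, ⟪T x, y⟫_ℝ = 0 := by
    intro x hx y hy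
    have h1 := form_add_smul h.symm x y 1
    rw [one_smul, hiso (x + y) (F.add_mem hx hy), hiso x hx, hiso y hy] at h1
    linarith
  by_cases hker : LinearMap.ker T ≤ F
  swap
  · obtain ⟨e, he, heF⟩ := SetLike.not_le_iff_exists.1 hker
    refine ⟨e, heF, ?_⟩
    intro x hx s
    have hTe : T e = 0 := LinearMap.mem_ker.1 he
    rw [form_add_smul h.symm, hiso x hx, h.symm x e, hTe, inner_zero_right, inner_zero_left]
    ring
  · -- orthogonal complement of `T F`
    obtain ⟨M, hM⟩ : ∃ M : Submodule ℝ E, M = (F.map T)ᗮ := ⟨_, rfl⟩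
    have hMmem : ∀ y ∈ M, ∀ x ∈ F, ⟪T x, y⟫_ℝ = 0 := by
      intro y hy x hx
      rw [hM] at hy
      exact (Submodule.mem_orthogonal _ _).1 hy _ ⟨x, hx, rfl⟩
    have hTF : finrank ℝ (F.map T) + finrank ℝ (LinearMap.ker T) = 6 := by
      have h1 := LinearMap.finrank_range_add_finrank_ker (T.domRestrict F)
      rw [hF] at h1
      have h2 : LinearMap.range (T.domRestrict F) = F.map T := by
        rw [LinearMap.range_domRestrict]
      have h3 : finrank ℝ (LinearMap.ker (T.domRestrict F)) = finrank ℝ (LinearMap.ker T) := by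
        rw [LinearMap.ker_domRestrict]
        exact (Submodule.comapSubtypeEquivOfLe hker).finrank_eq
      rw [h2, h3] at h1
      exact h1
    have hMdim : finrank ℝ M = 4 + finrank ℝ (LinearMap.ker T) := by
      have h1 := Submodule.finrank_add_finrank_orthogonal (F.map T)
      rw [hE, ← hM] at h1
      omega
    -- complement of `F` in `M`
    by_contra hcon
    push Not at hcon
    -- the form has no zero on `M` outside `F`
    have hne : ∀ y ∈ M, y ∉ F → ⟪T y, y⟫_ℝ ≠ 0 := by
      intro y hy hyF h0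
      obtain ⟨x, hx, s, hs⟩ := hcon y hyF
      apply hs
      rw [form_add_smul h.symm, hiso x hx, hMmem y hy x hx, h0]
      ring
    -- definiteness with a sign
    have hsign : ∀ (T : E →ₗ[ℝ] E) (h : AntiPair T J) (hk : 4 ≤ finrank ℝ (LinearMap.ker T))
        (hMdim : finrank ℝ M = 4 + finrank ℝ (LinearMap.ker T))
        (hiso : ∀ x ∈ F, ⟪T x, x⟫_ℝ = 0),
        ¬ ∀ y ∈ M, y ∉ F → 0 < ⟪T y, y⟫_ℝ := by
      intro T h hk hMdim hiso hpos
      obtain ⟨N, hN1, hN2, hN3⟩ := exists_nonpos_subspace h hE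
      have hle : M ⊓ N ≤ LinearMap.ker T := by
        rintro x ⟨hxM, hxN⟩
        by_cases hxF : x ∈ F
        · exact hN2 x hxN (hiso x hxF)
        · exact absurd (hN1 x hxN) (not_le.2 (hpos x hxM hxF))
      have h1 := Submodule.finrank_sup_add_finrank_inf_eq M N
      have h2 : finrank ℝ (M ⊓ N : Submodule ℝ E) ≤ finrank ℝ (LinearMap.ker T) :=
        Submodule.finrank_mono hle
      have h3 : finrank ℝ (M ⊔ N : Submodule ℝ E) ≤ 10 := by
        rw [← hE]; exact Submodule.finrank_le _
      omega
    -- choose two elements with opposite signs and connect them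
    have hex1 : ∃ y ∈ M, y ∉ F ∧ ⟪T y, y⟫_ℝ < 0 := by
      by_contra hc
      push Not at hc
      refine hsign T h hk hMdim hiso ?_
      intro y hy hyF
      exact lt_of_le_of_ne (hc y hy hyF) (hne y hy hyF).symm
    have hex2 : ∃ y ∈ M, y ∉ F ∧ 0 < ⟪T y, y⟫_ℝ := by
      by_contra hc
      push Not at hc
      have hker : LinearMap.ker (-T) = LinearMap.ker T := by
        ext x; simp
      refine hsign (-T) h.neg (by rw [hker]; exact hk) (by rw [hker]; exact hMdim) ?_ ?_
      · intro x hx; simp [hiso x hx]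
      · intro y hy hyF
        have := lt_of_le_of_ne (hc y hy hyF) (hne y hy hyF)
        simpa using this
    obtain ⟨y, hyM, hyF, hy⟩ := hex1
    obtain ⟨z, hzM, hzF, hz⟩ := hex2
    -- the quadratic polynomial `t ↦ form (y + t z)` has a root
    obtain ⟨t, ht⟩ : ∃ t : ℝ, ⟪T y, y⟫_ℝ + 2 * t * ⟪T y, z⟫_ℝ + t ^ 2 * ⟪T z, z⟫_ℝ = 0 := by
      generalize ⟪T y, y⟫_ℝ = a at hy ⊢
      generalize ⟪T z, z⟫_ℝ = c at hz ⊢
      generalize ⟪T y, z⟫_ℝ = b
      refine ⟨(-b + Real.sqrt (b ^ 2 - a * c)) / c, ?_⟩
      have hd : 0 ≤ b ^ 2 - a * c := by nlinarith [sq_nonneg b]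
      have hs := Real.sq_sqrt hd
      have hc0 : c ≠ 0 := hz.ne'
      field_simp
      nlinarith [hs]
    rw [← form_add_smul h.symm] at ht
    have hyz : y + t • z ∈ F := by
      by_contra hF'
      exact hne _ (M.add_mem hyM (M.smul_mem _ hzM)) hF' ht
    -- then `y = f - t z`, so the form at `y` is `t² c ≥ 0`
    have h5 : ⟪T y, y⟫_ℝ = t ^ 2 * ⟪T z, z⟫_ℝ := by
      have h6 := form_add_smul h.symm (y + t • z) z (-t)
      have e : y + t • z + (-t) • z = y := by
        rw [neg_smul]; abel
      rw [e, ht, hMmem z hzM _ hyz] at h6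
      rw [h6]; ring
    nlinarith [mul_nonneg (sq_nonneg t) hz.le]

/-- If `T` is invertible (and `dim E = 10`), its determinant is negative. -/
theorem det_neg_of_ker_eq_bot (h : AntiPair T J) (hE : finrank ℝ E = 10)
    (hk : LinearMap.ker T = ⊥) : LinearMap.det T < 0 := by
  have h1 := two_mul_finrank_neg_add_ker h hE
  rw [hk, finrank_bot, add_zero, finrank_specSpan] at h1
  have h2 : (Finset.univ.filter fun i => h.symm.eigenvalues hE i < 0).card = 5 := by omega
  have h0 : ∀ i, h.symm.eigenvalues hE i ≠ 0 := by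
    intro i hi
    have h3 : h.symm.eigenvectorBasis hE i ∈ LinearMap.ker T := by
      rw [LinearMap.mem_ker, h.symm.apply_eigenvectorBasis hE i, hi]
      simp
    rw [hk, Submodule.mem_bot] at h3
    have h4 := (h.symm.eigenvectorBasis hE).orthonormal.1 i
    rw [h3, norm_zero] at h4
    exact zero_ne_one h4
  rw [h.symm.det_eq_prod_eigenvalues hE]
  simp only [RCLike.ofReal_real_eq_id, id_eq]
  rw [← Finset.prod_filter_mul_prod_filter_not Finset.univ
    (fun i => h.symm.eigenvalues hE i < 0)]
  have h5 : 0 < ∏ i ∈ Finset.univ.filter (fun i => ¬ h.symm.eigenvalues hE i < 0),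
      h.symm.eigenvalues hE i := by
    refine Finset.prod_pos fun i hi => ?_
    rw [Finset.mem_filter] at hi
    exact lt_of_le_of_ne (not_lt.1 hi.2) (h0 i).symm
  have h6 : ∏ i ∈ Finset.univ.filter (fun i => h.symm.eigenvalues hE i < 0),
      h.symm.eigenvalues hE i < 0 := by
    have h7 : ∏ i ∈ Finset.univ.filter (fun i => h.symm.eigenvalues hE i < 0),
        h.symm.eigenvalues hE i = (-1) ^ 5 *
          ∏ i ∈ Finset.univ.filter (fun i => h.symm.eigenvalues hE i < 0),
            (-h.symm.eigenvalues hE i) := by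
      rw [← h2, ← Finset.prod_const, ← Finset.prod_mul_distrib]
      refine Finset.prod_congr rfl fun i _ => by ring
    rw [h7]
    have h8 : 0 < ∏ i ∈ Finset.univ.filter (fun i => h.symm.eigenvalues hE i < 0),
        (-h.symm.eigenvalues hE i) := by
      refine Finset.prod_pos fun i hi => ?_
      rw [Finset.mem_filter] at hi
      linarith [hi.2]
    nlinarith
  exact mul_neg_of_neg_of_pos h6 h5

/-- Dimension of the range of the positive part: `2 rank P + dim ker T = dim E`. -/
theorem two_mul_finrank_range_pos (h : AntiPair T J) (P : E →ₗ[ℝ] E) (hP : P.IsSymmetric)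
    (hPJ : ∀ x, T x = P x + J (P (J x)))
    (hPJP : ∀ x, P (J (P x)) = 0) :
    2 * finrank ℝ (LinearMap.range P) + finrank ℝ (LinearMap.ker T) = finrank ℝ E := by
  -- `T = P - N` with `N = - J P J`, `P N = 0`
  have hJ : ∀ x y, ⟪J x, y⟫_ℝ = -⟪x, J y⟫_ℝ := by
    intro x y
    have := h.Jiso x (J y)
    rw [h.Jsq, inner_neg_right] at this
    linarith
  -- ker T = ker P ⊓ ker (P ∘ J)
  have hker : LinearMap.ker T = LinearMap.ker P ⊓ LinearMap.ker (P ∘ₗ J) := by
    ext x
    rw [Submodule.mem_inf, LinearMap.mem_ker, LinearMap.mem_ker, LinearMap.mem_ker,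
      LinearMap.comp_apply]
    constructor
    · intro hx
      rw [hPJ] at hx
      have h1 : ⟪P x, J (P (J x))⟫_ℝ = 0 := by
        rw [hP x, hPJP, inner_zero_right]
      have h2 : P x = -J (P (J x)) := eq_neg_of_add_eq_zero_left hx
      have h3 : ⟪P x, P x⟫_ℝ = 0 := by
        nth_rewrite 2 [h2]
        rw [inner_neg_right, h1, neg_zero]
      have h4 : P x = 0 := inner_self_eq_zero.1 h3
      refine ⟨h4, ?_⟩
      rw [h4, zero_add] at hx
      have := congrArg J hx
      rw [h.Jsq, map_zero, neg_eq_zero] at this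
      exact this
    · rintro ⟨h1, h2⟩
      rw [hPJ, h1, h2, map_zero, add_zero]
  -- ranges of `P` and `J P` are complementary in `(ker T)ᗮ`
  have hdis : LinearMap.range P ⊓ (LinearMap.range P).map J = ⊥ := by
    rw [eq_bot_iff]
    rintro _ ⟨⟨x, rfl⟩, ⟨_, ⟨y, rfl⟩, hy⟩⟩
    rw [Submodule.mem_bot]
    have h1 : ⟪P x, P x⟫_ℝ = 0 := by
      nth_rewrite 2 [← hy]
      rw [hP x, hPJP, inner_zero_right]
    exact inner_self_eq_zero.1 h1
  have horth : LinearMap.range P ⊔ (LinearMap.range P).map J = (LinearMap.ker T)ᗮ := by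
    apply le_antisymm
    · refine sup_le ?_ ?_
      · rintro _ ⟨x, rfl⟩
        rw [Submodule.mem_orthogonal]
        intro y hy
        rw [hker, Submodule.mem_inf, LinearMap.mem_ker] at hy
        rw [← hP y x, hy.1, inner_zero_left]
      · rintro _ ⟨_, ⟨x, rfl⟩, rfl⟩
        rw [Submodule.mem_orthogonal]
        intro y hy
        rw [hker, Submodule.mem_inf, LinearMap.mem_ker, LinearMap.mem_ker,
          LinearMap.comp_apply] at hy
        have h2 := hJ y (P x)
        rw [← hP (J y) x, hy.2, inner_zero_left] at h2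
        linarith
    · rw [← Submodule.orthogonal_le_orthogonal_iff, Submodule.orthogonal_orthogonal]
      intro y hy
      rw [Submodule.mem_orthogonal] at hy
      rw [hker, Submodule.mem_inf, LinearMap.mem_ker, LinearMap.mem_ker, LinearMap.comp_apply]
      constructor
      · have h1 := hy (P (P y)) (Submodule.mem_sup_left ⟨_, rfl⟩)
        rw [hP (P y) y] at h1
        exact inner_self_eq_zero.1 h1
      · have h1 := hy (J (P (P (J y)))) (Submodule.mem_sup_right ⟨_, ⟨_, rfl⟩, rfl⟩)
        rw [hJ, hP (P (J y)) (J y), neg_eq_zero] at h1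
        exact inner_self_eq_zero.1 h1
  have h1 := Submodule.finrank_sup_add_finrank_inf_eq (LinearMap.range P)
    ((LinearMap.range P).map J)
  rw [hdis, finrank_bot, add_zero, horth,
    ← (Submodule.equivMapOfInjective J h.J_injective (LinearMap.range P)).finrank_eq] at h1
  have h2 := Submodule.finrank_add_finrank_orthogonal (LinearMap.ker T)
  omega

end Extend

end

end Pool.Agent.Flip
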